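import Pool.Agent.N193.PS.Conv
import Pool.Agent.N625.DY.L
import Pool.Agent.H560R3.GB.Defs

/-!
# Prime pairs in arithmetic progressions for the differences near the values of functions of non-integral index

Definition used (starting file `Pool.Agent.H560R3.GB.Defs`): `C₂`: the twin prime constant
`∏_{p > 2} (1 - 1 / (p - 1) ^ 2)`. From Mathlib: `ContDiffAt ℝ ⊤`: infinitely differentiable at a point;
`iteratedDeriv m f`: the derivative of order `m`; `⌊y⌋₊`: the integer part of `y`, and `0` for `y < 0`.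

Method: the characteristic function of the integer part of `f n` is small at all frequencies which are not close to
integers (van der Corput differencing and the inequality of Kusmin and Landau on dyadic blocks for all orders of
differencing, a discrete Fejer kernel for the passage to integer parts), and the values are not concentrated on short
intervals. The passage from such exponential sums to prime pairs is from the starting files (`Pool.Agent.W93`,
`Pool.Agent.TH872.Mir`) and from `Pool.Agent.N625.DY` (helper625).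
-/

set_option autoImplicit false

namespace Pool.Agent.Results.MP_92ef0c_nt.NonIntegralOrderDifferences

open Finset Filter Pool.Agent.H560R3.GB

/-- `f` is smoothly varying of index `c`: it is infinitely differentiable and positive for large arguments, and
`t ^ m f⁽ᵐ⁾(t) / f(t) → c (c - 1) ... (c - m + 1)` for every `m`. -/
def SmoothlyVarying (c : ℝ) (f : ℝ → ℝ) : Prop :=
  (∃ t₀ : ℝ, ∀ t > t₀, ContDiffAt ℝ ((⊤ : ℕ∞) : WithTop ℕ∞) f t ∧ 0 < f t) ∧
  ∀ m : ℕ, Tendsto (fun t => t ^ m * iteratedDeriv m f t / f t) atTop (nhds (∏ i ∈ range m, (c - i)))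

open Classical in
/-- `π_d(x; a, q)`: the number of primes `p ≤ x` with `p + d ≤ x` prime and `p ≡ a (mod q)`. (For even
`d > 0` such a prime `p` is automatically odd.) -/
noncomputable def pairs (d : ℕ) (x : ℝ) (a q : ℕ) : ℕ :=
  ((range (⌊x⌋₊ + 1)).filter (fun p => p.Prime ∧ (p + d).Prime ∧ (p : ℝ) + d ≤ x ∧ p ≡ a [MOD q])).card

/-- The main term `M_d(x; q)` of the problem. -/
noncomputable def main (d : ℕ) (x : ℝ) (q : ℕ) : ℝ :=
  2 / (((range q).filter (fun α => Nat.Coprime α q ∧ Nat.Coprime (α + d) q)).card : ℝ) *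
    (∏ p ∈ d.primeFactors.filter (fun p => 2 < p), ((p : ℝ) - 1) / ((p : ℝ) - 2)) * C₂ *
    ∫ t in (2 : ℝ)..x, 1 / Real.log t ^ 2

/-- The estimate of the problem with the bound `X / (log X) ^ C`, for all `x ≤ X`, all moduli
`q ≤ (log X) ^ A₂`, all admissible classes `a`, and all even `d` with `D ≤ d ≤ D + (log X) ^ A₁`. -/
def Holds (A₁ A₂ C X D : ℕ) : Prop :=
  ∀ d q a : ℕ, D ≤ d → (d : ℝ) ≤ D + Real.log X ^ A₁ → 0 < d → Even d → 1 ≤ q → (q : ℝ) ≤ Real.log X ^ A₂ →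
    Nat.Coprime a q → Nat.Coprime (a + d) q → ∀ x : ℝ, 2 ≤ x → x ≤ X →
    |(pairs d x a q : ℝ) - main d x q| ≤ X / Real.log X ^ C

lemma holds_of (A B C X D : ℕ) (hgood : Pool.Agent.W93.PP.GoodD A B C X D) : Holds A B C X D := by
  intro d q a hd1 hd2 hd0 hdev hq1 hq2 ha had x hx2 hxX
  obtain ⟨δ, hδ⟩ := Nat.exists_eq_add_of_le hd1
  subst hδ
  have hδL : (δ : ℝ) ≤ Real.log X ^ A := by
    push_cast at hd2 ⊢
    linarith
  have h2 := hgood δ q a hδL hq1 hq2 ha had hdev.two_dvd hd0.ne' x hx2 hxX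
  have e1 : main (D + δ) x q =
      sing (D + δ) / Pool.Agent.W93.PP.Cnt q (D + δ) * Pool.Agent.W93.PP.Li2 x := by
    unfold main sing Pool.Agent.W93.PP.Cnt Pool.Agent.W93.PP.Li2
    ring
  rw [e1]
  exact h2

open Pool.Agent.N193.PS

open Classical in
/-- **(1)** Let `f` be smoothly varying of an index `c > 0` which is not an integer, and let `κ ≠ 0`, `B`, `A₁`, `A₂`, `C`, `U`,
`W` and `a` be fixed. Let `N` be large, let `x` be such that `f n ≤ N` for the integers `1 ≤ n ≤ x` and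
`N ≤ f x log ^ a N`, let `X ≥ N` and `N (log X) ^ (C + 7) ≤ X ≤ N (log X) ^ W`, and let `|c₀| ≤ B N`. Then all the integers
`1 ≤ n ≤ x`, with at most `x / log ^ U N` exceptions, have the following property: if `D = c₀ + κ ⌊f n⌋` is positive,
then for all even `d` with `D ≤ d ≤ D + (log X) ^ A₁`, all `y ≤ X`, all `q ≤ (log X) ^ A₂` and all `α` with
`(α, q) = (α + d, q) = 1`, `|π_d(y; α, q) - M_d(y; q)| ≤ X / (log X) ^ C`.

**(2)** Part (1) applies to all the functions `f t = ∑ a z t ^ z.1 (log t) ^ z.2` (finite sums) with a leading term `z₀`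
whose coefficient is positive and whose exponent `c = z₀.1` is positive and not an integer; for example to `n ^ c`. -/
theorem result :
    (∀ (c : ℝ) (f : ℝ → ℝ), 0 < c → (∀ m : ℕ, c ≠ m) → SmoothlyVarying c f →
      ∀ (κ : ℤ), κ ≠ 0 → ∀ (B A₁ A₂ C U W a : ℕ), ∃ N₀ : ℕ, ∀ N : ℕ, N₀ ≤ N → ∀ x : ℕ,
      (∀ n ∈ Icc 1 x, f n ≤ N) → (N : ℝ) ≤ Real.log N ^ a * f x →
      ∀ X : ℕ, N ≤ X → (N : ℝ) * Real.log X ^ (C + 7) ≤ X → (X : ℝ) ≤ N * Real.log X ^ W →
      ∀ c₀ : ℤ, |c₀| ≤ B * N →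
        (((Icc 1 x).filter fun n : ℕ => ¬ (0 < c₀ + κ * (⌊f n⌋₊ : ℕ) →
          Holds A₁ A₂ C X (c₀ + κ * (⌊f n⌋₊ : ℕ)).toNat)).card : ℝ) ≤ x / Real.log N ^ U) ∧
    (∀ (F : Finset (ℝ × ℝ)) (a : ℝ × ℝ → ℝ) (z₀ : ℝ × ℝ), z₀ ∈ F → 0 < a z₀ →
      (∀ z ∈ F, z ≠ z₀ → z.1 < z₀.1 ∨ z.1 = z₀.1 ∧ z.2 < z₀.2) →
      SmoothlyVarying z₀.1 (fun t => ∑ z ∈ F, a z * t ^ z.1 * Real.log t ^ z.2)) := by
  refine ⟨fun c f hc hn hf κ hκ B A₁ A₂ C U W a => ?_, fun F a z₀ h1 h2 h3 => gp_sv F a z₀ h1 h2 h3⟩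
  have hsv := sv_of c hc hn f hf
  obtain ⟨k₀, h0⟩ := Pool.Agent.N625.DY.cls_pairs (hsv.clsV (a + 1) κ hκ) B (U + 1) A₁ A₂ C W
  refine ⟨2 ^ k₀ + 8, fun N hN x hup hlow X hNX hX1 hX2 c₀ hc₀ => ?_⟩
  rcases Nat.eq_zero_or_pos x with rfl | hx
  · simp
  have hk2 : 0 < 2 ^ k₀ := by positivity
  have hN4 : 4 ≤ N := by omega
  have hNk : N ≤ 2 ^ dg N := (lt_dg N).le
  have hN0 : (0 : ℝ) < N := by exact_mod_cast (by omega : 0 < N)
  obtain ⟨hval, hsize⟩ := conv (fun m => iteratedDeriv m f) a N x hN4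
    (by simpa only [iteratedDeriv_zero] using hup) (by simpa only [iteratedDeriv_zero] using hlow)
  obtain ⟨Q, hQ⟩ : ∃ Q : ℤ → Prop, Q = fun y => (0 < y → Holds A₁ A₂ C X y.toNat) := ⟨_, rfl⟩
  -- the size of `X`
  have hlX : 2 ≤ Real.log (X : ℝ) := by
    have h1 : (8 : ℝ) ≤ X := by exact_mod_cast (by omega : 8 ≤ X)
    have h2 : Real.log 8 ≤ Real.log (X : ℝ) := Real.log_le_log (by norm_num) h1
    have h3 : Real.log 8 = 3 * Real.log 2 := by
      rw [show (8 : ℝ) = 2 ^ 3 by norm_num, Real.log_pow]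
      norm_num
    linarith [Real.log_two_gt_d9]
  have h2N : ((2 ^ dg N : ℕ) : ℝ) ≤ 2 * N := by exact_mod_cast dg_le N (by omega)
  have h2N' : (2 : ℝ) ^ dg N ≤ 2 * N := by
    push_cast at h2N
    exact h2N
  have hX3 : (2 : ℝ) ^ dg N * Real.log X ^ (C + 6) ≤ X := by
    refine le_trans ?_ hX1
    calc (2 : ℝ) ^ dg N * Real.log X ^ (C + 6) ≤ (2 * N) * Real.log X ^ (C + 6) :=
          mul_le_mul_of_nonneg_right h2N' (by positivity)
      _ = N * (Real.log X ^ (C + 6) * 2) := by ring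
      _ ≤ N * (Real.log X ^ (C + 6) * Real.log X) := by gcongr
      _ = N * Real.log X ^ (C + 7) := by rw [← pow_succ]
  have hX4 : (X : ℝ) ≤ (2 : ℝ) ^ dg N * Real.log X ^ W := by
    refine hX2.trans (mul_le_mul_of_nonneg_right ?_ (by positivity))
    exact_mod_cast hNk
  have hX5 : 2 ^ dg N ≤ X := by
    have h1 : (1 : ℝ) ≤ Real.log X ^ (C + 6) := one_le_pow₀ (by linarith)
    have h2 : (2 : ℝ) ^ dg N ≤ X := by
      refine le_trans ?_ hX3
      exact le_mul_of_one_le_right (by positivity) h1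
    exact_mod_cast h2
  have h1 := count_of (a + 1) (dg N) x hx hval hsize (fun v => Q (c₀ + κ * (v : ℕ))) (1 / (dg N : ℝ) ^ (U + 1))
    (fun p hp => h0 (dg N) (dg_large k₀ N (by omega)) X hX5 (by push_cast; exact hX3) (by push_cast; exact hX4) p hp c₀ (by
        refine hc₀.trans (mul_le_mul_of_nonneg_left ?_ (Nat.cast_nonneg _))
        exact_mod_cast hNk) Q (fun y hy => by
      rw [hQ] at hy
      push Not at hy
      exact ⟨hy.1, fun hG => hy.2 (holds_of _ _ _ _ _ hG)⟩))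
  refine le_trans ?_ (h1.trans (scale_x N U x hN4))
  apply Nat.cast_le.2
  apply card_le_card
  intro n hn'
  rw [mem_filter] at hn' ⊢
  refine ⟨hn'.1, fun hcon => hn'.2 ?_⟩
  rw [val_iter, hQ] at hcon
  exact hcon

end Pool.Agent.Results.MP_92ef0c_nt.NonIntegralOrderDifferences
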