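import Pool.Agent.N469.TL.Pairs

/-!
# Prime pairs in progressions, uniformly in the modulus, for almost all smooth differences

Definition used: `Pool.Agent.H560R3.GB.C₂`, the twin prime constant `∏_{p > 2} (1 - 1 / (p - 1) ^ 2)`
(the infimum of the partial products).

The proof combines an elementary bound for the exponential sum over the integers composed of primes from a given set
(`Pool.Agent.N469.SQ.exp_alt`: it is large only near few rational numbers with small denominators) with the second moment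
method of the starting files for prime pairs in progressions (`Pool.Agent.Y885.tl_goodD`).
-/

set_option autoImplicit false

namespace Pool.Agent.Results.MP_92ef0c_nt.SmoothDifferences

open Finset Pool.Agent.H560R3.GB

open Classical in
/-- `π_d(x; a, q)`: the number of primes `p ≤ x` with `p + d ≤ x` prime and `p ≡ a (mod q)`. (For even
`d > 0` such a prime `p` is automatically odd.) -/
noncomputable def pairs (d : ℕ) (x : ℝ) (a q : ℕ) : ℕ :=
  ((range (⌊x⌋₊ + 1)).filter (fun p => p.Prime ∧ (p + d).Prime ∧ (p : ℝ) + d ≤ x ∧ p ≡ a [MOD q])).card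

/-- The main term `M_d(x; q)` of the problem. -/
noncomputable def main (d : ℕ) (x : ℝ) (q : ℕ) : ℝ :=
  2 / (((range q).filter (fun α => Nat.Coprime α q ∧ Nat.Coprime (α + d) q)).card : ℝ) *
    (∏ p ∈ d.primeFactors.filter (fun p => 2 < p), ((p : ℝ) - 1) / ((p : ℝ) - 2)) * C₂ *
    ∫ t in (2 : ℝ)..x, 1 / Real.log t ^ 2

/-- The estimate of the problem with the bound `X / (log X) ^ C`, for all `x ≤ X`, all moduli
`q ≤ (log X) ^ B`, all admissible classes `a`, and all even `d` with `D₀ ≤ d ≤ D₀ + (log X) ^ A`. -/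
def Holds (A B C X D₀ : ℕ) : Prop :=
  ∀ d q a : ℕ, D₀ ≤ d → (d : ℝ) ≤ D₀ + Real.log X ^ A → 0 < d → Even d → 1 ≤ q → (q : ℝ) ≤ Real.log X ^ B →
    Nat.Coprime a q → Nat.Coprime (a + d) q → ∀ x : ℝ, 2 ≤ x → x ≤ X →
    |(pairs d x a q : ℝ) - main d x q| ≤ X / Real.log X ^ C

/-- The integers `1 ≤ v ≤ N` all of whose prime factors belong to `P`. -/
def composedOf (P : Finset ℕ) (N : ℕ) : Finset ℕ := (Icc 1 N).filter fun v => v.primeFactors ⊆ P

/-- The `y`-smooth integers `1 ≤ v ≤ N`: the integers all of whose prime factors are at most `y`. -/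
def smooth (y N : ℕ) : Finset ℕ := (Icc 1 N).filter fun v => ∀ p ∈ v.primeFactors, p ≤ y

open Classical in
/-- Let `A`, `B`, `C`, `U`, `W`, `K`, `B₀`, the integer `κ ≠ 0` and `δ > 0` be fixed, let `N` be large, `1 ≤ y ≤ log ^ K N`, let
`c` be an arbitrary integer with `|c| ≤ B₀ N`, and let `X` be a number with `N (log X) ^ (C + 6) ≤ X ≤ N (log X) ^ W`.

(1) Let `P` be an arbitrary set of primes which are at most `y`, with at least `y ^ (1 / 2 + δ) log N` elements. Then
for all the integers `v ≤ N` composed of primes from `P`, up to a proportion of at most `1 / log ^ U N` of them,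
`D₀ = c + κ v` has the following property: if `D₀` is not negative, then for all even `d > 0` with
`D₀ ≤ d ≤ D₀ + (log X) ^ A`, all `x ≤ X`, all `q ≤ (log X) ^ B` and all `a` with `(a, q) = (a + d, q) = 1`,
`|π_d(x; a, q) - M_d(x; q)| ≤ X / (log X) ^ C`. (There can be as few as about `N ^ (1 / 2 + δ)` such integers `v`.)

(2) In particular this holds for all the `y`-smooth integers `v ≤ N`, up to a proportion of at most `1 / log ^ U N` of them,
if `y ≥ log ^ (2 + δ) N`. (For example for the differences `d = 2 v`, `v` smooth, and all even `d` near them.) -/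
theorem result (A B C U W K B₀ : ℕ) (κ : ℤ) (hκ : κ ≠ 0) (δ : ℝ) (hδ : 0 < δ) :
    ∃ N₀ : ℕ, ∀ N, N₀ ≤ N → ∀ y : ℕ, 1 ≤ y → (y : ℝ) ≤ Real.log N ^ K → ∀ c : ℤ, |c| ≤ B₀ * N →
      ∀ X : ℕ, (N : ℝ) ≤ X → (N : ℝ) * Real.log X ^ (C + 6) ≤ X → (X : ℝ) ≤ N * Real.log X ^ W →
      (∀ P : Finset ℕ, (∀ p ∈ P, p.Prime ∧ p ≤ y) → (y : ℝ) ^ (1 / 2 + δ) * Real.log N ≤ P.card →
        (((composedOf P N).filter fun v : ℕ => 0 ≤ c + κ * v ∧ ¬ Holds A B C X (c + κ * v).toNat).card : ℝ) ≤
          ((composedOf P N).card : ℝ) / Real.log N ^ U) ∧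
      (Real.log N ^ (2 + δ) ≤ y →
        (((smooth y N).filter fun v : ℕ => 0 ≤ c + κ * v ∧ ¬ Holds A B C X (c + κ * v).toNat).card : ℝ) ≤
          ((smooth y N).card : ℝ) / Real.log N ^ U) := by
  obtain ⟨N₀, h0⟩ := Pool.Agent.N469.TL.both δ hδ K U _ (Pool.Agent.N469.TL.sm_pairs κ hκ K B₀ A B C U W)
  refine ⟨N₀, fun N hN y hy hy' c hc X hX0 hX1 hX2 => ?_⟩
  refine h0 N hN y hy hy' (fun v : ℕ => 0 ≤ c + κ * v ∧ ¬ Holds A B C X (c + κ * v).toNat) (fun v => inferInstance)
    ⟨c, X, hc, hX0, hX1, hX2, fun v hv => ⟨hv.1, fun hgood => hv.2 ?_⟩⟩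
  intro d q a hd1 hd2 hd0 hdev hq1 hq2 ha had x hx2 hxX
  obtain ⟨δ, hδ⟩ := Nat.exists_eq_add_of_le hd1
  subst hδ
  have hδL : (δ : ℝ) ≤ Real.log X ^ A := by
    push_cast at hd2 ⊢
    linarith
  have h2 := hgood δ q a hδL hq1 hq2 ha had hdev.two_dvd hd0.ne' x hx2 hxX
  have e1 : ∀ m : ℕ, main m x q = sing m / Pool.Agent.W93.PP.Cnt q m * Pool.Agent.W93.PP.Li2 x := by
    intro m
    unfold main sing Pool.Agent.W93.PP.Cnt Pool.Agent.W93.PP.Li2
    ring
  rw [e1]
  exact h2

end Pool.Agent.Results.MP_92ef0c_nt.SmoothDifferences
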